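import Pool.Agent.MNU.StmtsU

set_option autoImplicit false

/-!
# MNU, row NEE (model: helper86's NME): the numerical inequality for even clusters
-/

namespace Pool.Agent.MNU.H83N

open Pool.Agent.MNU

theorem nee_aux (k B γ y y₀ c α m : ℝ) (hB : 0 < B) (hm : 0 < m)
    (hP : 0 ≤ B * (k - (γ + 1)) + k ^ 2)
    (hy : y₀ ≤ y) (hα : α * (1 - α) = y)
    (h : k ^ 2 + 3 * γ ^ 2 + (3 * k * γ - 3 * γ ^ 2) * c + 4 * B / (30 * m) ≤
      4 * y₀ * (B * (k - (γ + 1)) + k ^ 2)) :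
    1 / 30 ≤ m * ((k - (γ + 1)) * (α * (1 - α)) -
      (k ^ 2 * (1 - 2 * α) ^ 2 + (3 * γ) ^ 2 / 3 + (k * (3 * γ) - (3 * γ) ^ 2 / 3) * c) /
        (4 * B)) := by
  have e : (1 - 2 * α) ^ 2 = 1 - 4 * y := by
    rw [← hα]
    ring
  have h3 := mul_le_mul_of_nonneg_left hy hP
  rw [hα, e]
  have h4 : 4 * B / (30 * m) ≤ 4 * B * ((k - (γ + 1)) * y) -
      (k ^ 2 * (1 - 4 * y) + (3 * γ) ^ 2 / 3 + (k * (3 * γ) - (3 * γ) ^ 2 / 3) * c) := by
    nlinarith [h, h3]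
  have h5 : 1 / (30 * m) ≤ (k - (γ + 1)) * y -
      (k ^ 2 * (1 - 4 * y) + (3 * γ) ^ 2 / 3 + (k * (3 * γ) - (3 * γ) ^ 2 / 3) * c) /
        (4 * B) := by
    have h6 : (k - (γ + 1)) * y -
      (k ^ 2 * (1 - 4 * y) + (3 * γ) ^ 2 / 3 + (k * (3 * γ) - (3 * γ) ^ 2 / 3) * c) /
        (4 * B) = (4 * B * ((k - (γ + 1)) * y) -
      (k ^ 2 * (1 - 4 * y) + (3 * γ) ^ 2 / 3 + (k * (3 * γ) - (3 * γ) ^ 2 / 3) * c)) /
        (4 * B) := by
      field_simp
    rw [h6, le_div_iff₀ (by positivity)]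
    calc 1 / (30 * m) * (4 * B) = 4 * B / (30 * m) := by ring
      _ ≤ _ := h4
  have h7 := mul_le_mul_of_nonneg_left h5 hm.le
  calc (1 : ℝ) / 30 = m * (1 / (30 * m)) := by field_simp
    _ ≤ _ := h7

theorem nee : NeeStmt := by
  intro g hg a ha1 ha2 hae
  have hnodd : ¬ Odd a := Nat.not_odd_iff_even.2 hae
  by_cases hg2 : g = 2
  · subst hg2
    have hef : ef 2 a = 2 / 9 := by
      unfold ef
      rw [if_neg hnodd, if_pos rfl]
    have ha : a = 2 ∨ a = 4 := by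
      obtain ⟨b, hb⟩ := hae
      omega
    rw [hef]
    rcases ha with rfl | rfl
    · unfold BB kk
      norm_num
    · unfold BB kk
      norm_num
  have hg3 : 3 ≤ g := by omega
  have hγ : (3 : ℝ) ≤ (g : ℝ) := by exact_mod_cast hg3
  obtain ⟨γ, hγd⟩ : ∃ γ : ℝ, γ = (g : ℝ) := ⟨_, rfl⟩
  rw [← hγd] at hγ
  have hs : (0 : ℝ) < 2 * γ + 8 := by linarith
  have hk : kk g = (4 * γ ^ 2 + 24 * γ - 1) / (2 * γ + 8) := by
    unfold kk
    rw [← hγd]
  have hB : BB g = (4 * γ ^ 3 + 18 * γ ^ 2 + 2 * γ + 9) / (2 * γ + 8) := by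
    unfold BB
    rw [hk, ← hγd]
    field_simp
    ring
  have hP : BB g * (kk g - (γ + 1)) + kk g ^ 2 =
      ((4 * γ ^ 3 + 18 * γ ^ 2 + 2 * γ + 9) * (2 * γ ^ 2 + 14 * γ - 9) +
        (4 * γ ^ 2 + 24 * γ - 1) ^ 2) / (2 * γ + 8) ^ 2 := by
    rw [hk, hB]
    field_simp
    ring
  have hB0 : 0 < BB g := by
    rw [hB]
    positivity
  have hP0 : 0 ≤ BB g * (kk g - (γ + 1)) + kk g ^ 2 := by
    rw [hP]
    apply div_nonneg _ (by positivity)
    have h1 : 0 ≤ 2 * γ ^ 2 + 14 * γ - 9 := by nlinarith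
    positivity
  have hm : (0 : ℝ) < 2 * γ + 9 := by positivity
  rw [← hγd]
  have hy : (a : ℝ) / (2 * γ + 2) * (1 - a / (2 * γ + 2)) =
      (a : ℝ) * (2 * γ + 2 - a) / (4 * (γ + 1) ^ 2) := by
    have h1 : (2 * γ + 2 : ℝ) ≠ 0 := by positivity
    field_simp
    ring
  obtain ⟨t, ht⟩ : ∃ t : ℝ, t = γ - 3 := ⟨_, rfl⟩
  have hγt : γ = t + 3 := by rw [ht]; ring
  have ht0 : 0 ≤ t := by rw [ht]; linarith
  by_cases hc : a = 2 ∨ a = 2 * g
  · have hee : ef g a = 1 / 4 := by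
      unfold ef
      rw [if_neg hnodd, if_neg hg2, if_pos hc]
    rw [hee]
    refine nee_aux _ _ _ _ (γ / (γ + 1) ^ 2) _ _ _ hB0 hm hP0 ?_ hy ?_
    · rw [div_le_div_iff₀ (by positivity) (by positivity)]
      have h1 : (a : ℝ) * (2 * γ + 2 - a) = 4 * γ := by
        rcases hc with h | h
        · rw [h]
          push_cast
          ring
        · rw [h, hγd]
          push_cast
          ring
      rw [h1]
      apply le_of_eq
      ring
    · rw [← sub_nonneg]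
      have h2 : 4 * (γ / (γ + 1) ^ 2) * (BB g * (kk g - (γ + 1)) + kk g ^ 2) -
          (kk g ^ 2 + 3 * γ ^ 2 + (3 * kk g * γ - 3 * γ ^ 2) * (1 / 4) +
            4 * BB g / (30 * (2 * γ + 9))) =
          (60 * t ^ 7 + 4258 * t ^ 6 + 84258 * t ^ 5 + 765227 * t ^ 4 + 3650512 * t ^ 3 +
            9260463 * t ^ 2 + 11347832 * t + 4781040) /
            (30 * (2 * γ + 9) * (2 * γ + 8) ^ 2 * (γ + 1) ^ 2) := by
        rw [hP, hk, hB, hγt]
        have h3 : 2 * (t + 3) + 8 ≠ 0 := by positivity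
        have h4 : t + 3 + 1 ≠ 0 := by positivity
        have h5 : 2 * (t + 3) + 9 ≠ 0 := by positivity
        field_simp
        ring
      rw [h2]
      positivity
  · have hee : ef g a = 1 := by
      unfold ef
      rw [if_neg hnodd, if_neg hg2, if_neg hc]
    rw [hee]
    have hc1 : a ≠ 2 := fun h => hc (Or.inl h)
    have hc2 : a ≠ 2 * g := fun h => hc (Or.inr h)
    obtain ⟨b, hb⟩ := hae
    have ha4 : 4 ≤ a := by omega
    have ha5 : a + 2 ≤ 2 * g := by omega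
    have ha4' : (4 : ℝ) ≤ (a : ℝ) := by exact_mod_cast ha4
    have ha5' : (a : ℝ) + 2 ≤ 2 * γ := by rw [hγd]; exact_mod_cast ha5
    refine nee_aux _ _ _ _ ((2 * γ - 2) / (γ + 1) ^ 2) _ _ _ hB0 hm hP0 ?_ hy ?_
    · rw [div_le_div_iff₀ (by positivity) (by positivity)]
      have h1 : 0 ≤ ((a : ℝ) - 4) * (2 * γ - 2 - a) :=
        mul_nonneg (by linarith) (by linarith)
      have h5 : 4 * (2 * γ - 2) ≤ (a : ℝ) * (2 * γ + 2 - a) := by nlinarith
      have h6 := mul_le_mul_of_nonneg_right h5 (sq_nonneg (γ + 1))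
      calc (2 * γ - 2) * (4 * (γ + 1) ^ 2) = 4 * (2 * γ - 2) * (γ + 1) ^ 2 := by ring
        _ ≤ (a : ℝ) * (2 * γ + 2 - a) * (γ + 1) ^ 2 := h6
    · rw [← sub_nonneg]
      have h2 : 4 * ((2 * γ - 2) / (γ + 1) ^ 2) * (BB g * (kk g - (γ + 1)) + kk g ^ 2) -
          (kk g ^ 2 + 3 * γ ^ 2 + (3 * kk g * γ - 3 * γ ^ 2) * 1 +
            4 * BB g / (30 * (2 * γ + 9))) =
          (1440 * t ^ 7 + 53968 * t ^ 6 + 800088 * t ^ 5 + 6041612 * t ^ 4 +
            24676972 * t ^ 3 + 52467138 * t ^ 2 + 48074192 * t + 7326240) /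
            (30 * (2 * γ + 9) * (2 * γ + 8) ^ 2 * (γ + 1) ^ 2) := by
        rw [hP, hk, hB, hγt]
        have h3 : 2 * (t + 3) + 8 ≠ 0 := by positivity
        have h4 : t + 3 + 1 ≠ 0 := by positivity
        have h5 : 2 * (t + 3) + 9 ≠ 0 := by positivity
        field_simp
        ring
      rw [h2]
      positivity

end Pool.Agent.MNU.H83N
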