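import Pool.Agent.MNU.StmtsU

set_option autoImplicit false

/-!
# MNU, row QEE (copy of helper44's QED): completing the square on one edge
-/

namespace Pool.Agent.MNU.H83

open Pool.Agent.MNU

theorem BB_pos (g : ℕ) : 0 < BB g := by
  have hg : (0 : ℝ) ≤ g := Nat.cast_nonneg g
  have h : BB g = (4 * (g : ℝ) ^ 3 + 18 * g ^ 2 + 2 * g + 9) / (2 * g + 8) := by
    unfold BB kk
    field_simp
    ring
  rw [h]
  positivity

theorem u1_id (g a b : ℕ) : u1 g a b = (2 * (g : ℝ) + 9) *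
    (BB g * ((a : ℝ) / (2 * g + 2) - b / (2 * g + 9)) ^ 2 -
      kk g * (1 - 2 * ((a : ℝ) / (2 * g + 2))) * ((a : ℝ) / (2 * g + 2) - b / (2 * g + 9)) +
      (kk g - (g + 1)) * ((a : ℝ) / (2 * g + 2) * (1 - a / (2 * g + 2)))) := by
  have hg : (0 : ℝ) ≤ g := Nat.cast_nonneg g
  have h1 : (2 * (g : ℝ) + 2) ≠ 0 := by positivity
  have h2 : (2 * (g : ℝ) + 9) ≠ 0 := by positivity
  have h3 : (2 * (g : ℝ) + 8) ≠ 0 := by positivity
  have h4 : ((g : ℝ) + 4) ≠ 0 := by positivity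
  unfold u1 u0 gm BB kk
  field_simp
  ring

theorem qee : QeeStmt := by
  intro g _ a b l D J hl hD
  have hg : (0 : ℝ) ≤ g := Nat.cast_nonneg g
  have hB := BB_pos g
  have hm : (0 : ℝ) < 2 * (g : ℝ) + 9 := by positivity
  rw [u1_id]
  obtain ⟨α, hα⟩ : ∃ α : ℝ, α = (a : ℝ) / (2 * g + 2) := ⟨_, rfl⟩
  obtain ⟨τ, hτ⟩ : ∃ τ : ℝ, τ = α - (b : ℝ) / (2 * g + 9) := ⟨_, rfl⟩
  rw [← hα, ← hτ]
  obtain ⟨k, hk⟩ : ∃ k : ℝ, k = kk g := ⟨_, rfl⟩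
  obtain ⟨β, hβ⟩ : ∃ β : ℝ, β = BB g := ⟨_, rfl⟩
  rw [← hk, ← hβ]
  rw [← hβ] at hB
  obtain ⟨A, hA⟩ : ∃ A : ℝ, A = 3 * (g : ℝ) := ⟨_, rfl⟩
  rw [← hA]
  -- the main inequality
  have h1 : (k * (1 - 2 * α) * l - A * D) ^ 2 / (4 * β * l) ≤
      (k ^ 2 * (1 - 2 * α) ^ 2 * l - 2 * k * A * (1 - 2 * α) * D + A ^ 2 * J / 3) / (4 * β) := by
    rw [div_le_div_iff₀ (by positivity) (by positivity)]
    have h2 : A ^ 2 * D ^ 2 ≤ A ^ 2 * (l * J / 3) := mul_le_mul_of_nonneg_left hD (sq_nonneg A)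
    have h3 := mul_le_mul_of_nonneg_left h2 (by positivity : (0 : ℝ) ≤ 4 * β)
    nlinarith [h3]
  have h4 : 0 ≤ β * l * τ ^ 2 - (k * (1 - 2 * α) * l - A * D) * τ +
      (k * (1 - 2 * α) * l - A * D) ^ 2 / (4 * β * l) := by
    have h5 : β * l * τ ^ 2 - (k * (1 - 2 * α) * l - A * D) * τ +
        (k * (1 - 2 * α) * l - A * D) ^ 2 / (4 * β * l) =
        (2 * β * l * τ - (k * (1 - 2 * α) * l - A * D)) ^ 2 / (4 * β * l) := by
      field_simp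
      ring
    rw [h5]
    positivity
  have h6 : (k - (g + 1)) * (α * (1 - α)) * l -
      (k ^ 2 * (1 - 2 * α) ^ 2 * l - 2 * k * A * (1 - 2 * α) * D + A ^ 2 * J / 3) / (4 * β) ≤
      l * (β * τ ^ 2 - k * (1 - 2 * α) * τ + (k - (g + 1)) * (α * (1 - α))) + A * τ * D := by
    nlinarith [h1, h4]
  calc (2 * (g : ℝ) + 9) * ((k - (g + 1)) * (α * (1 - α)) * l -
        (k ^ 2 * (1 - 2 * α) ^ 2 * l - 2 * k * A * (1 - 2 * α) * D + A ^ 2 * J / 3) / (4 * β))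
      ≤ (2 * (g : ℝ) + 9) * (l * (β * τ ^ 2 - k * (1 - 2 * α) * τ +
        (k - (g + 1)) * (α * (1 - α))) + A * τ * D) := mul_le_mul_of_nonneg_left h6 hm.le
    _ = l * ((2 * (g : ℝ) + 9) * (β * τ ^ 2 - k * (1 - 2 * α) * τ +
        (k - (g + 1)) * (α * (1 - α)))) + A * (2 * g + 9) * τ * D := by ring

end Pool.Agent.MNU.H83
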